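import Pool.Agent.W2helper38.AC.Stm

/-!
# Project AC, piece A: rank-one Hermitian projections
-/

set_option autoImplicit false

namespace Pool.Agent.W2helper66.AC

open Pool.Agent.W2helper38.AC

theorem inner_eq (z w : V) : (inner ℂ z w : ℂ) = ∑ k, star (z k) * w k := by
  rw [PiLp.inner_apply]
  apply Finset.sum_congr rfl
  intro k _
  simp [mul_comm]

theorem sum_star_self (z : V) : ∑ k, star (z k) * z k = ((‖z‖ ^ 2 : ℝ) : ℂ) := by
  rw [← inner_eq, inner_self_eq_norm_sq_to_K]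
  norm_cast

theorem sum_self_star (z : V) : ∑ k, z k * star (z k) = ((‖z‖ ^ 2 : ℝ) : ℂ) := by
  rw [← sum_star_self]
  apply Finset.sum_congr rfl
  intro k _
  ring

theorem a1 : StmA1 := by
  rintro P ⟨hH, hI, hT⟩
  obtain ⟨i0, hi0⟩ : ∃ i0, P i0 i0 ≠ 0 := by
    by_contra hcon
    push Not at hcon
    simp [hcon] at hT
  -- the column
  let u : V := WithLp.toLp 2 (fun i => P i i0)
  have hu : ∀ i, u i = P i i0 := fun i => rfl
  have hd : ((‖u‖ ^ 2 : ℝ) : ℂ) = P i0 i0 := by
    rw [← sum_star_self, ← hI i0 i0]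
    apply Finset.sum_congr rfl
    intro k _
    rw [hu, ← hH]
  have hu0 : (‖u‖ : ℝ) ≠ 0 := by
    intro h
    rw [h] at hd
    apply hi0
    rw [← hd]
    simp
  have hd0 : ((‖u‖ ^ 2 : ℝ) : ℂ) ≠ 0 := by rw [hd]; exact hi0
  have hPu : ∀ i, ∑ k, P i k * u k = u i := fun i => hI i i0
  have huP : ∀ j, ∑ k, star (u k) * P k j = star (u j) := by
    intro j
    calc ∑ k, star (u k) * P k j = ∑ k, P i0 k * P k j := by
          apply Finset.sum_congr rfl
          intro k _
          rw [hu, ← hH]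
      _ = P i0 j := hI i0 j
      _ = star (u j) := by rw [hu, ← hH]
  set d : ℂ := ((‖u‖ ^ 2 : ℝ) : ℂ) with hdd
  let Q : M := fun i j => P i j - u i * star (u j) / d
  have hdstar : star d = d := by
    rw [hdd]
    exact Complex.conj_ofReal _
  have hQH : ∀ i j, Q j i = star (Q i j) := by
    intro i j
    simp only [Q]
    rw [star_sub, ← hH i j, star_div₀, star_mul', star_star, hdstar, mul_comm (star (u i))]
  have hQI : ∀ i j, ∑ k, Q i k * Q k j = Q i j := by
    intro i j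
    have h1 : ∀ k, Q i k * Q k j = P i k * P k j - (P i k * u k) * (star (u j) / d)
        - (u i / d) * (star (u k) * P k j) + (u i * star (u j) / d ^ 2) * (star (u k) * u k) := by
      intro k
      simp only [Q]
      field_simp
      ring
    rw [Finset.sum_congr rfl (fun k _ => h1 k), Finset.sum_add_distrib, Finset.sum_sub_distrib,
      Finset.sum_sub_distrib, hI, ← Finset.sum_mul, ← Finset.mul_sum, ← Finset.mul_sum, hPu, huP,
      sum_star_self]
    simp only [Q]
    rw [← hdd]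
    field_simp
    ring
  have hQT : ∑ i, Q i i = 0 := by
    simp only [Q]
    rw [Finset.sum_sub_distrib, hT, ← Finset.sum_div, sum_self_star, ← hdd, div_self hd0, sub_self]
  have hQ0 : ∀ i j, Q i j = 0 := by
    have h1 : ∑ i, ∑ k, ((‖Q i k‖ ^ 2 : ℝ) : ℂ) = 0 := by
      rw [← hQT]
      apply Finset.sum_congr rfl
      intro i _
      rw [← hQI i i]
      apply Finset.sum_congr rfl
      intro k _
      rw [hQH i k]
      have := Complex.mul_conj' (Q i k)
      rw [show star (Q i k) = (starRingEnd ℂ) (Q i k) from rfl, this]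
      norm_cast
    have h2 : ∑ i, ∑ k, ‖Q i k‖ ^ 2 = 0 := by exact_mod_cast h1
    intro i j
    have h3 := (Finset.sum_eq_zero_iff_of_nonneg (fun i _ => Finset.sum_nonneg
      (fun k _ => sq_nonneg ‖Q i k‖))).1 h2 i (Finset.mem_univ _)
    have h4 := (Finset.sum_eq_zero_iff_of_nonneg (fun k _ => sq_nonneg ‖Q i k‖)).1 h3 j
      (Finset.mem_univ _)
    exact norm_eq_zero.1 (pow_eq_zero_iff (two_ne_zero) |>.1 h4)
  refine ⟨((‖u‖⁻¹ : ℝ) : ℂ) • u, ?_, ?_⟩
  · rw [norm_smul, Complex.norm_real, Real.norm_eq_abs, abs_of_nonneg (by positivity),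
      inv_mul_cancel₀ hu0]
  · funext i j
    have h1 := hQ0 i j
    simp only [Q] at h1
    rw [sub_eq_zero.1 h1]
    simp only [rk, PiLp.smul_apply, smul_eq_mul, star_mul']
    rw [show star (((‖u‖⁻¹ : ℝ) : ℂ)) = ((‖u‖⁻¹ : ℝ) : ℂ) from Complex.conj_ofReal _, hdd]
    push_cast
    have h5 : ((‖u‖ : ℝ) : ℂ) ≠ 0 := by exact_mod_cast hu0
    field_simp

theorem ap_smul (A : M) (z : V) (a : ℂ) : ap A (a • z) = a • ap A z := by
  ext i
  simp only [ap, PiLp.smul_apply, smul_eq_mul, Finset.mul_sum]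
  apply Finset.sum_congr rfl
  intro j _
  ring

theorem ap_rk (w z : V) : ap (rk w w) z = (inner ℂ w z : ℂ) • w := by
  ext i
  simp only [ap, rk, PiLp.smul_apply, smul_eq_mul, inner_eq, Finset.sum_mul]
  apply Finset.sum_congr rfl
  intro j _
  ring

theorem a2 : StmA2 := by
  refine ⟨?_, ?_, ?_, ?_, ?_, ?_⟩
  · intro z hz
    have hn : ((‖z‖ ^ 2 : ℝ) : ℂ) ≠ 0 := by
      have : ‖z‖ ≠ 0 := norm_ne_zero_iff.2 hz
      exact_mod_cast pow_ne_zero 2 this
    have hs : star ((‖z‖ ^ 2 : ℝ) : ℂ) = ((‖z‖ ^ 2 : ℝ) : ℂ) := Complex.conj_ofReal _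
    refine ⟨?_, ?_, ?_⟩
    · intro i j
      simp only [pr]
      rw [star_div₀, star_mul', star_star, hs, mul_comm (star (z i))]
    · intro i j
      simp only [pr]
      have h1 : ∀ k, z i * star (z k) / ((‖z‖ ^ 2 : ℝ) : ℂ) *
          (z k * star (z j) / ((‖z‖ ^ 2 : ℝ) : ℂ)) =
          (z i * star (z j) / ((‖z‖ ^ 2 : ℝ) : ℂ) ^ 2) * (star (z k) * z k) := by
        intro k
        field_simp
      rw [Finset.sum_congr rfl (fun k _ => h1 k), ← Finset.mul_sum, sum_star_self]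
      field_simp
    · simp only [pr]
      rw [← Finset.sum_div, sum_self_star, div_self hn]
  · intro z a ha
    funext i j
    simp only [pr, PiLp.smul_apply, smul_eq_mul, star_mul', norm_smul]
    have h1 : (a * star a : ℂ) = ((‖a‖ ^ 2 : ℝ) : ℂ) := by
      have := Complex.mul_conj' a
      rw [show star a = (starRingEnd ℂ) a from rfl, this]
      norm_cast
    have h2 : ((‖a‖ ^ 2 : ℝ) : ℂ) ≠ 0 := by
      have : ‖a‖ ≠ 0 := norm_ne_zero_iff.2 ha
      exact_mod_cast pow_ne_zero 2 this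
    rw [show a * z i * (star a * star (z j)) = (a * star a) * (z i * star (z j)) by ring, h1,
      mul_pow, Complex.ofReal_mul, mul_div_mul_left _ _ h2]
  · intro z hz
    funext i j
    simp [pr, rk, hz]
  · intro z w hz hw h
    have hn : ((‖z‖ ^ 2 : ℝ) : ℂ) ≠ 0 := by
      have : ‖z‖ ≠ 0 := norm_ne_zero_iff.2 hz
      exact_mod_cast pow_ne_zero 2 this
    have h1 : z = ((inner ℂ w z : ℂ) / ((‖w‖ ^ 2 : ℝ) : ℂ)) • w := by
      ext i
      rw [PiLp.smul_apply, smul_eq_mul, inner_eq]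
      have h2 : ∑ j, pr z i j * z j = ∑ j, pr w i j * z j := by rw [h]
      have h3 : ∑ j, pr z i j * z j = z i := by
        simp only [pr]
        have h4 : ∀ k, z i * star (z k) / ((‖z‖ ^ 2 : ℝ) : ℂ) * z k =
            (z i / ((‖z‖ ^ 2 : ℝ) : ℂ)) * (star (z k) * z k) := by
          intro k
          field_simp
        rw [Finset.sum_congr rfl (fun k _ => h4 k), ← Finset.mul_sum, sum_star_self,
          div_mul_cancel₀ _ hn]
      rw [h3] at h2
      rw [h2]
      simp only [pr]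
      rw [Finset.sum_div, Finset.sum_mul]
      apply Finset.sum_congr rfl
      intro j _
      ring
    refine ⟨_, ?_, h1⟩
    intro h0
    rw [h0, zero_smul] at h1
    exact hz h1
  · intro A z a
    exact ap_smul A z a
  · exact ap_rk

theorem a3 : StmA3 := by
  intro z hz Q hQ hne
  obtain ⟨w0, hw0, rfl⟩ := a1 Q hQ
  set s : ℂ := inner ℂ z w0 with hs
  have hs0 : s ≠ 0 := by
    intro h0
    apply hne
    have h1 : ∑ i, ∑ k, rk z z i k * rk w0 w0 k i = (∑ i, z i * star (w0 i)) * s := by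
      rw [hs, inner_eq, Finset.sum_mul_sum]
      apply Finset.sum_congr rfl
      intro i _
      apply Finset.sum_congr rfl
      intro k _
      simp only [rk]
      ring
    rw [h1, h0, mul_zero]
  have hsn : ‖s‖ ≠ 0 := norm_ne_zero_iff.2 hs0
  have hsc : ((‖s‖ : ℝ) : ℂ) ≠ 0 := by exact_mod_cast hsn
  have hss : star s * s = ((‖s‖ : ℝ) : ℂ) ^ 2 := by
    rw [mul_comm]
    exact Complex.mul_conj' s
  have hreal : star ((‖s‖ : ℝ) : ℂ) = ((‖s‖ : ℝ) : ℂ) := Complex.conj_ofReal _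
  refine ⟨(star s / ((‖s‖ : ℝ) : ℂ)) • w0, ‖s‖, ?_, ?_, ?_, ?_, ?_⟩
  · rw [norm_smul, norm_div, norm_star, Complex.norm_real, norm_norm, div_self hsn, one_mul, hw0]
  · funext i j
    simp only [rk, PiLp.smul_apply, smul_eq_mul, star_mul', star_div₀, star_star, hreal]
    have h1 : star s / ((‖s‖ : ℝ) : ℂ) * w0 i * (s / ((‖s‖ : ℝ) : ℂ) * star (w0 j)) =
        (star s * s) / ((‖s‖ : ℝ) : ℂ) ^ 2 * (w0 i * star (w0 j)) := by
      field_simp
    rw [h1, hss, div_self (pow_ne_zero 2 hsc), one_mul]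
  · positivity
  · calc ‖s‖ ≤ ‖z‖ * ‖w0‖ := norm_inner_le_norm z w0
      _ = 1 := by rw [hz, hw0, one_mul]
  · rw [inner_smul_right, ← hs, div_mul_eq_mul_div, hss, pow_two, mul_div_assoc, div_self hsc,
      mul_one]

end Pool.Agent.W2helper66.AC
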